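import Mathlib

/-! CR-6 for MP_04fd10_lc (captain helper43): countably many functions separating points. -/

set_option autoImplicit false

open Set Topology Filter TopologicalSpace

namespace Pool.Agent.Helper71.CR

/-- Countably many functions separating points strongly. -/
theorem exists_separating (K : Type) [MetricSpace K] [CompactSpace K] :
    ∃ h : ℕ → C(K, ℝ), ∀ x y, x ≠ y → ∃ n, h n x ≤ -2 ∧ 2 ≤ h n y := by
  rcases isEmpty_or_nonempty K with hK | hK
  · exact ⟨fun _ => 0, fun x => (hK.false x).elim⟩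
  have : SecondCountableTopology K := inferInstance
  obtain ⟨e, he⟩ := exists_surjective_nat (ℕ × ℕ × ℚ)
  refine ⟨fun n => ⟨fun z => ((e n).2.1 : ℝ) * dist z (denseSeq K (e n).1) + ((e n).2.2 : ℝ),
    by fun_prop⟩, fun x y hxy => ?_⟩
  have hδ : 0 < dist x y := dist_pos.2 hxy
  obtain ⟨k, hk⟩ : ∃ k, dist x (denseSeq K k) < dist x y / 4 := by
    obtain ⟨z, hz, ⟨k, rfl⟩⟩ := Metric.dense_iff.1 (denseRange_denseSeq K) x (dist x y / 4)
      (by positivity)
    exact ⟨k, by rw [dist_comm]; exact hz⟩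
  set q := denseSeq K k with hq
  have h2 : dist x y ≤ dist x q + dist y q := by
    have := dist_triangle x q y
    rwa [dist_comm q y] at this
  obtain ⟨a, ha⟩ := exists_nat_ge (10 / dist x y)
  have ha' : 10 ≤ (a : ℝ) * dist x y := by
    rwa [div_le_iff₀ hδ] at ha
  have ha0 : (0 : ℝ) ≤ a := Nat.cast_nonneg a
  have h3 : (a : ℝ) * dist x q ≤ a * (dist x y / 4) := mul_le_mul_of_nonneg_left hk.le ha0
  have h4 : (a : ℝ) * dist x y ≤ a * (dist x q + dist y q) := mul_le_mul_of_nonneg_left h2 ha0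
  obtain ⟨b, hb1, hb2⟩ := exists_rat_btwn (show 2 - (a : ℝ) * dist y q < -2 - a * dist x q by
    nlinarith)
  obtain ⟨n, hn⟩ := he (k, a, b)
  refine ⟨n, ?_, ?_⟩
  · simp only [ContinuousMap.coe_mk, hn, ← hq]
    linarith
  · simp only [ContinuousMap.coe_mk, hn, ← hq]
    linarith

end Pool.Agent.Helper71.CR
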